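import Pool.Agent.H74.ForestC

namespace Pool.Agent.Results.MP_e7d22a_nt.DenseForestIff

open Pool.Agent.H74.Forest

/-- For every `k`, the union of `k` rotated and translated copies of the triangular lattice is a
dense forest for almost every choice of the angles and translations if and only if `k ≥ 2`. -/
theorem result (k : ℕ) :
    (∀ᵐ ω : (Fin k → S1) × (Fin k → ℂ), IsDenseForest (TBG k ω.1 ω.2)) ↔ 2 ≤ k :=
  main_dense k

end Pool.Agent.Results.MP_e7d22a_nt.DenseForestIff
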