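import Pool.Agent.H74.ForestD

namespace Pool.Agent.Results.MP_e7d22a_nt.NeverUniformlyDiscrete

open Pool.Agent.H74.Forest

/-- For every `k`, for almost every choice of the angles and translations, the union of `k` rotated
and translated copies of the triangular lattice is not a uniformly discrete dense forest. -/
theorem result (k : ℕ) :
    ∀ᵐ ω : (Fin k → S1) × (Fin k → ℂ),
      ¬ (IsDenseForest (TBG k ω.1 ω.2) ∧ IsUniformlyDiscrete (TBG k ω.1 ω.2)) := by
  by_cases hk : 2 ≤ k
  · filter_upwards [main_not_ud k hk] with ω hω h
    exact hω h.2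
  · apply Filter.Eventually.of_forall
    intro ω h
    exact not_dense_small k (by omega) ω.1 ω.2 h.1

end Pool.Agent.Results.MP_e7d22a_nt.NeverUniformlyDiscrete
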